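import Pool.Agent.Q264.KS.Stm

/-! Project KS (MP_a3b3eb_an), job KS-SELS. -/

set_option autoImplicit false

namespace Pool.Agent.Q181.KS

open Module Pool.Agent.Q264.KS

universe u

theorem t_SELS : S_SELS.{u} := by
  intro hN X _ _ _ _ hU v Y M e g₀ hv hY he heM hg₀ δ hδ
  -- step 1
  obtain ⟨g, hgv, hgd, hgM⟩ : ∃ g : X →L[ℝ] ℝ, g v = 0 ∧ ‖g - g₀‖ < δ / 2 ∧ g ∉ M := by
    by_cases h : g₀ ∈ M
    · have hpos : 0 < ‖e‖ + 1 := by positivity
      set c : ℝ := δ / (4 * (‖e‖ + 1)) with hc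
      have hc0 : 0 < c := by positivity
      refine ⟨g₀ + c • e, ?_, ?_, ?_⟩
      · simp [hg₀, he]
      · rw [add_sub_cancel_left, norm_smul, Real.norm_eq_abs, abs_of_pos hc0]
        have h1 : c * (‖e‖ + 1) = δ / 4 := by
          rw [hc]; field_simp
        nlinarith
      · intro h2
        have h3 : c • e ∈ M := by
          have := M.sub_mem h2 h
          rwa [add_sub_cancel_left] at this
        exact heM ((Submodule.smul_mem_iff _ hc0.ne').mp h3)
    · exact ⟨g₀, hg₀, by simp; linarith, h⟩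
  have hg0 : g ≠ 0 := fun h => hgM (h ▸ M.zero_mem)
  have hgn : 0 < ‖g‖ := norm_pos_iff.mpr hg0
  obtain ⟨x, hx1, hxg⟩ := hN X g
  by_cases hxY : x ∈ Y
  swap
  · exact ⟨g, x, hgv, by linarith, hgM, hxY, hx1, hxg⟩
  -- step 2
  obtain ⟨η₀, hη₀, hη₀Y⟩ := Submodule.exists_le_ker_of_lt_top Y (lt_top_iff_ne_top.mpr hY)
  set η : X →L[ℝ] ℝ := LinearMap.toContinuousLinearMap η₀ with hη
  have hηY : ∀ y ∈ Y, η y = 0 := fun y hy => by
    have := hη₀Y hy
    simpa [hη] using this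
  have hη0 : η ≠ 0 := by
    intro h
    apply hη₀
    ext z
    have : η z = 0 := by rw [h]; rfl
    simpa [hη] using this
  obtain ⟨t, ht0, htd, htM⟩ : ∃ t : ℝ, t ≠ 0 ∧ |t| * ‖η‖ < δ / 2 ∧ g + t • η ∉ M := by
    have hpos : 0 < ‖η‖ + 1 := by positivity
    set t₀ : ℝ := δ / (4 * (‖η‖ + 1)) with ht₀
    have ht0 : 0 < t₀ := by positivity
    have h1 : t₀ * (‖η‖ + 1) = δ / 4 := by
      rw [ht₀]; field_simp
    by_cases h : g + t₀ • η ∈ M
    · refine ⟨t₀ / 2, by positivity, ?_, ?_⟩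
      · rw [abs_of_pos (by positivity)]
        nlinarith [norm_nonneg η]
      · intro h2
        apply hgM
        have h3 : g = (2 : ℝ) • (g + (t₀ / 2) • η) - (g + t₀ • η) := by
          ext z
          simp
          ring
        rw [h3]
        exact M.sub_mem (M.smul_mem _ h2) h
    · refine ⟨t₀, ht0.ne', ?_, h⟩
      rw [abs_of_pos ht0]
      nlinarith
  obtain ⟨x', hx'1, hx'g⟩ := hN X (g + t • η)
  have hg'v : (g + t • η) v = 0 := by simp [hgv, hηY v hv]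
  have hg'd : ‖g + t • η - g₀‖ < δ := by
    have h1 : g + t • η - g₀ = (g - g₀) + t • η := by abel
    rw [h1]
    have h2 := norm_add_le (g - g₀) (t • η)
    rw [norm_smul, Real.norm_eq_abs] at h2
    linarith
  by_cases hx'Y : x' ∈ Y
  swap
  · exact ⟨g + t • η, x', hg'v, hg'd, htM, hx'Y, hx'1, hx'g⟩
  exfalso
  have hle : ∀ (f : X →L[ℝ] ℝ) (z : X), f z ≤ ‖f‖ * ‖z‖ := fun f z =>
    (le_abs_self _).trans (f.le_opNorm z)
  have e1 : g x' = ‖g + t • η‖ := by
    rw [← hx'g]; simp [hηY x' hx'Y]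
  have e2 : (g + t • η) x = ‖g‖ := by
    rw [← hxg]; simp [hηY x hxY]
  have e3 : ‖g + t • η‖ ≤ ‖g‖ := by
    rw [← e1]
    have := hle g x'
    rwa [hx'1, mul_one] at this
  have e4 : ‖g‖ ≤ ‖g + t • η‖ := by
    rw [← e2]
    have := hle (g + t • η) x
    rwa [hx1, mul_one] at this
  have e5 : ‖g + t • η‖ = ‖g‖ := le_antisymm e3 e4
  have hx0 : x ≠ 0 := by
    intro h
    rw [h, norm_zero] at hx1
    exact zero_ne_one hx1
  have key := hU x hx0 (‖g‖⁻¹ • g) (‖g‖⁻¹ • (g + t • η))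
    (fun z => by
      change ‖g‖⁻¹ * g z ≤ ‖z‖
      rw [inv_mul_le_iff₀ hgn]
      exact hle g z)
    (by
      change ‖g‖⁻¹ * g x = ‖x‖
      rw [hxg, hx1, inv_mul_cancel₀ hgn.ne'])
    (fun z => by
      change ‖g‖⁻¹ * (g + t • η) z ≤ ‖z‖
      rw [inv_mul_le_iff₀ hgn, ← e5]
      exact hle (g + t • η) z)
    (by
      change ‖g‖⁻¹ * (g + t • η) x = ‖x‖
      rw [e2, hx1, inv_mul_cancel₀ hgn.ne'])
  have h6 : g = g + t • η := smul_right_injective _ (inv_ne_zero hgn.ne') key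
  have h7 : t • η = 0 := by
    have := h6
    rwa [left_eq_add] at this
  rcases smul_eq_zero.mp h7 with h | h
  · exact ht0 h
  · exact hη0 h

end Pool.Agent.Q181.KS
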